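import Pool.Agent.H59.L.S8.H212R2.KLS.T1

/-! Borell's lemma for a log-concave probability density and a seminorm. -/

set_option autoImplicit false

namespace Pool.Agent.W380.SX

open MeasureTheory Set
open scoped ENNReal
open Pool.Agent.H212R2.KLS (mu)

theorem third_le : (1 / 3 : ℝ) ≤ Real.exp (-1) := by
  rw [Real.exp_neg, one_div, inv_le_inv₀ (by norm_num) (Real.exp_pos 1)]
  have := Real.exp_one_lt_d9
  linarith

theorem borell {F : Type*} [NormedAddCommGroup F] [InnerProductSpace ℝ F]
    [FiniteDimensional ℝ F] [MeasurableSpace F] [BorelSpace F] (ρ : F → ℝ)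
    (h0 : ∀ x, 0 ≤ ρ x) (hm : Measurable ρ)
    (hlc : ∀ x y : F, ∀ t : ℝ, 0 < t → t < 1 →
      ρ x ^ (1 - t) * ρ y ^ t ≤ ρ ((1 - t) • x + t • y))
    (h1 : mu ρ univ = 1) (N : F → ℝ) (hN : Measurable N)
    (hadd : ∀ x y, N (x + y) ≤ N x + N y) (hsm : ∀ (c : ℝ) (x : F), N (c • x) = |c| * N x)
    (r : ℝ) (hr : 3 / 4 ≤ (mu ρ).real {x | N x ≤ r}) (t : ℝ) (ht : 1 < t) :
    (mu ρ).real {x | t * r < N x} ≤ Real.exp (-(t + 1) / 2) := by
  set A : Set F := {x | N x ≤ r} with hA
  set B : Set F := {x | t * r < N x} with hB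
  have hAm : MeasurableSet A := measurableSet_le hN measurable_const
  have hBm : MeasurableSet B := measurableSet_lt measurable_const hN
  have htp : 0 < t + 1 := by linarith
  set τ : ℝ := (t - 1) / (t + 1) with hτ
  have hτ0 : 0 < τ := div_pos (by linarith) htp
  have hτ1 : τ < 1 := by rw [hτ, div_lt_one htp]; linarith
  have h1τ : 1 - τ = 2 / (t + 1) := by rw [hτ]; field_simp; ring
  have hρE : Measurable fun x => ENNReal.ofReal (ρ x) := hm.ennreal_ofReal
  have hfin : IsFiniteMeasure (mu ρ) := ⟨by rw [h1]; exact ENNReal.one_lt_top⟩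
  have key := Pool.Agent.H212R2.KLS.PL (volume : Measure F) τ hτ0 hτ1
    (B.indicator fun x => ENNReal.ofReal (ρ x)) (A.indicator fun x => ENNReal.ofReal (ρ x))
    (Aᶜ.indicator fun x => ENNReal.ofReal (ρ x)) (hρE.indicator hBm) (hρE.indicator hAm)
    (hρE.indicator hAm.compl) (by
      intro x y
      by_cases hx : x ∈ B
      · by_cases hy : y ∈ A
        · have hz : (1 - τ) • x + τ • y ∈ Aᶜ := by
            intro hz
            have hz' : N ((1 - τ) • x + τ • y) ≤ r := hz
            have hx' : t * r < N x := hx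
            have hy' : N y ≤ r := hy
            have e1 : x = ((t + 1) / 2) • ((1 - τ) • x + τ • y) + (-((t - 1) / 2)) • y := by
              rw [smul_add, smul_smul, smul_smul, h1τ]
              have e2 : (t + 1) / 2 * (2 / (t + 1)) = 1 := by field_simp
              have e3 : (t + 1) / 2 * τ = (t - 1) / 2 := by rw [hτ]; field_simp
              rw [e2, e3, one_smul, add_assoc, ← add_smul, add_neg_cancel, zero_smul, add_zero]
            have e4 : N x ≤ (t + 1) / 2 * N ((1 - τ) • x + τ • y) + (t - 1) / 2 * N y := by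
              have e5 := hadd (((t + 1) / 2) • ((1 - τ) • x + τ • y)) ((-((t - 1) / 2)) • y)
              rw [← e1, hsm, hsm, abs_neg, abs_of_pos (by linarith : (0 : ℝ) < (t + 1) / 2),
                abs_of_pos (by linarith : (0 : ℝ) < (t - 1) / 2)] at e5
              exact e5
            have e6 : (t + 1) / 2 * N ((1 - τ) • x + τ • y) ≤ (t + 1) / 2 * r :=
              mul_le_mul_of_nonneg_left hz' (by linarith)
            have e7 : (t - 1) / 2 * N y ≤ (t - 1) / 2 * r :=
              mul_le_mul_of_nonneg_left hy' (by linarith)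
            nlinarith
          rw [indicator_of_mem hx, indicator_of_mem hy, indicator_of_mem hz,
            ENNReal.ofReal_rpow_of_nonneg (h0 x) (by linarith),
            ENNReal.ofReal_rpow_of_nonneg (h0 y) hτ0.le,
            ← ENNReal.ofReal_mul (Real.rpow_nonneg (h0 x) _)]
          exact ENNReal.ofReal_le_ofReal (hlc x y τ hτ0 hτ1)
        · rw [indicator_of_notMem hy, ENNReal.zero_rpow_of_pos hτ0, mul_zero]
          exact zero_le
      · rw [indicator_of_notMem hx, ENNReal.zero_rpow_of_pos (by linarith : 0 < 1 - τ), zero_mul]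
        exact zero_le)
  have hmu : ∀ C : Set F, MeasurableSet C →
      ∫⁻ x, C.indicator (fun x => ENNReal.ofReal (ρ x)) x = mu ρ C := by
    intro C hC
    rw [lintegral_indicator hC]
    unfold mu
    rw [withDensity_apply _ hC]
  rw [hmu B hBm, hmu A hAm, hmu Aᶜ hAm.compl] at key
  -- pass to real numbers
  set a := (mu ρ).real A with ha
  set b := (mu ρ).real B with hb
  have ha1 : a ≤ 1 := by
    have h2 : (mu ρ).real A ≤ (mu ρ).real univ := measureReal_mono (subset_univ _)
    have h3 : (mu ρ).real univ = 1 := by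
      unfold Measure.real; rw [h1]; rfl
    linarith
  have hac : (mu ρ).real Aᶜ = 1 - a := by
    have h3 : (mu ρ).real univ = 1 := by
      unfold Measure.real; rw [h1]; rfl
    rw [measureReal_compl hAm, h3]
  have keyR : b ^ (1 - τ) * a ^ τ ≤ 1 - a := by
    have h2 := ENNReal.toReal_mono (measure_ne_top _ _) key
    rw [ENNReal.toReal_mul, ← ENNReal.toReal_rpow, ← ENNReal.toReal_rpow] at h2
    rw [← hac]
    exact h2
  have hb0 : 0 ≤ b := measureReal_nonneg
  have haτ : 3 / 4 ≤ a ^ τ := by
    have h2 : a ^ (1 : ℝ) ≤ a ^ τ :=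
      Real.rpow_le_rpow_of_exponent_ge (by linarith) ha1 hτ1.le
    rw [Real.rpow_one] at h2
    linarith
  have hb1 : b ^ (1 - τ) ≤ 1 / 3 := by
    have h2 : 0 ≤ b ^ (1 - τ) := Real.rpow_nonneg hb0 _
    nlinarith
  have hb2 : b ^ (1 - τ) ≤ Real.exp (-1) := hb1.trans third_le
  have hb3 : b = (b ^ (1 - τ)) ^ ((t + 1) / 2) := by
    rw [← Real.rpow_mul hb0, h1τ]
    have : 2 / (t + 1) * ((t + 1) / 2) = 1 := by field_simp
    rw [this, Real.rpow_one]
  rw [hb3]
  calc (b ^ (1 - τ)) ^ ((t + 1) / 2) ≤ Real.exp (-1) ^ ((t + 1) / 2) :=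
        Real.rpow_le_rpow (Real.rpow_nonneg hb0 _) hb2 (by linarith)
    _ = Real.exp (-(t + 1) / 2) := by
        rw [← Real.exp_mul]; congr 1; ring

end Pool.Agent.W380.SX
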